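import Mathlib

open Finset Filter

namespace Pool.Agent.Results.MP_4451bf_co.Below

/-- Vertices that become blue from the initial blue set `B` under the colour-change rule. -/
inductive Blue {V : Type} (G : SimpleGraph V) (B : Finset V) : V → Prop
  | base (v) : v ∈ B → Blue G B v
  | force (u v) : Blue G B u → G.Adj u v → (∀ w, G.Adj u w → w ≠ v → Blue G B w) → Blue G B v

open Classical in
/-- Probability that the `p`-random vertex subset is a zero forcing set. -/
noncomputable def prob {V : Type} [Fintype V] (G : SimpleGraph V) (p : ℝ) : ℝ :=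
  ∑ B : Finset V, if ∀ v, Blue G B v then p ^ #B * (1 - p) ^ (Fintype.card V - #B) else 0

section
variable {V : Type} [Fintype V] [DecidableEq V] (p : ℝ)

def E (f : Finset V → ℝ) : ℝ := ∑ B : Finset V, p ^ #B * (1 - p) ^ (Fintype.card V - #B) * f B

lemma Esub (T : Finset V) : E p (fun B => if T ⊆ B then 1 else 0) = p ^ #T := by
  have := Fintype.prod_add (fun _ : V => p) fun v => if v ∈ T then 0 else 1 - p
  rw [prod_congr rfl (g := fun v => if v ∈ T then p else 1) fun v _ => by split_ifs <;> ring] at this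
  rw [← prod_const, ← prod_ite_mem_eq, this]
  refine sum_congr rfl fun B _ => ?_
  beta_reduce
  split_ifs with h
  · rw [prod_congr rfl (s₂ := Bᶜ) (g := fun _ => 1 - p) fun v q => if_neg fun r =>
      mem_compl.1 q (h r)]
    simp [card_compl]
  · obtain ⟨v, a, b⟩ := not_subset.1 h
    rw [prod_eq_zero (f := fun v => if v ∈ T then 0 else 1 - p) (mem_compl.2 b) (if_pos a)]
    simp

lemma Enone {ι : Type} [DecidableEq ι] (s : Finset ι) (T : ι → Finset V) (r : ℕ)
    (d : (s : Set ι).PairwiseDisjoint T) (c : ∀ i ∈ s, #(T i) = r) :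
    E p (fun B => ∏ i ∈ s, (1 + -if T i ⊆ B then 1 else 0)) = (1 - p ^ r) ^ #s := by
  rw [← prod_const, prod_congr rfl fun _ _ => sub_eq_add_neg _ _]
  simp only [prod_one_add, E, mul_sum]
  rw [sum_comm]
  refine sum_congr rfl fun I h => ?_
  have h := mem_powerset.1 h
  have := Esub p (I.biUnion T)
  rw [card_biUnion (d.subset h), sum_congr rfl fun i q => c i (h q)] at this
  rw [sum_const, smul_eq_mul, mul_comm, pow_mul] at this
  rw [prod_const, neg_pow, ← this, E, mul_sum]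
  refine sum_congr rfl fun B _ => ?_
  simp only [prod_neg, prod_ite_zero, prod_const_one, biUnion_subset]
  ring

end

lemma chain {P : ℕ → Prop} {w : ℕ} (h : ∀ j < w, P j ↔ P (j + 1)) : ∀ j ≤ w, (P j ↔ P 0)
  | 0, _ => .rfl
  | j + 1, q => (h j q).symm.trans (chain h j (by omega))

variable (a l m : ℕ)

def F : Finset (ℕ × ℕ) := {x ∈ range (l + m + 1) ×ˢ range (a + m) | x.2 < a + (x.1 - l)}

lemma mem_F {a l m} {x : ℕ × ℕ} : x ∈ F a l m ↔ x.1 ≤ l + m ∧ x.2 < a + (x.1 - l) := by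
  simp only [F, mem_filter, mem_product, mem_range]; omega

def G : SimpleGraph (F a l m) := .fromRel fun x y => y.1.1 = x.1.1 + 1 ∧
  (y.1.2 = x.1.2 ∨ l ≤ x.1.1 ∧ y.1.2 = x.1.2 + 1) ∨ x.1.1 = l + m ∧ y.1.1 = l + m

lemma adj {a l m} {x y : F a l m} : (G a l m).Adj x y ↔ (x.1.1 ≠ y.1.1 ∨ x.1.2 ≠ y.1.2) ∧
    ((y.1.1 = x.1.1 + 1 ∧ (y.1.2 = x.1.2 ∨ l ≤ x.1.1 ∧ y.1.2 = x.1.2 + 1) ∨
    x.1.1 = l + m ∧ y.1.1 = l + m) ∨ x.1.1 = y.1.1 + 1 ∧ (x.1.2 = y.1.2 ∨ l ≤ y.1.1 ∧
    x.1.2 = y.1.2 + 1) ∨ y.1.1 = l + m ∧ x.1.1 = l + m) := by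
  rw [G, SimpleGraph.fromRel_adj, Ne, Subtype.ext_iff, Prod.ext_iff, not_and_or]

lemma zf {a l m} (B : Finset (F a l m)) (m0 : 0 < m)
    (h1 : ∀ j < a, ∃ i < l, (∃ q, ⟨(i, j), q⟩ ∈ B) ∧ ∃ q, ⟨(i + 1, j), q⟩ ∈ B)
    (h2 : ∀ i < m, ∃ j < a, ∃ q, ⟨(l + i + 1, j), q⟩ ∈ B) : ∀ v, Blue (G a l m) B v := by
  let P : ℕ → ℕ → Prop := fun i j => ∀ q, Blue (G a l m) B ⟨(i, j), q⟩
  have f : ∀ i j i' j', (i, j) ∈ F a l m → P i j → (∀ p q, (G a l m).Adj ⟨(i, j), p⟩ ⟨(i', j'), q⟩) →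
      (∀ p x y q, (G a l m).Adj ⟨(i, j), p⟩ ⟨(x, y), q⟩ → (x ≠ i' ∨ y ≠ j') → P x y) → P i' j' :=
    fun i j i' j' p h u v q => .force _ _ (h p) (u p q) fun ⟨⟨x, y⟩, r⟩ s t =>
      v p x y r s (by by_contra c; push Not at c; exact t (by simp [c])) r
  have k1 : ∀ j < a, ∀ i ≤ l, P i j := fun j hj i hi => by
    obtain ⟨i₀, u, ⟨q, v⟩, q', v'⟩ := h1 j hj
    have c := chain (P := fun i => P i j ∧ P (i + 1) j) (w := l - 1) fun i h =>
      ⟨fun t => ⟨t.2, f (i + 1) j _ _ (mem_F.2 (by dsimp only; omega)) t.2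
        (fun _ _ => adj.2 (by dsimp only; omega)) fun _ x y _ s n => by
          obtain ⟨rfl, rfl⟩ : x = i ∧ y = j := by have := adj.1 s; dsimp only at this; omega
          exact t.1⟩,
      fun t => ⟨f (i + 1) j _ _ (mem_F.2 (by dsimp only; omega)) t.1
        (fun _ _ => adj.2 (by dsimp only; omega)) fun _ x y _ s n => by
          obtain ⟨rfl, rfl⟩ : x = i + 1 + 1 ∧ y = j := by have := adj.1 s; dsimp only at this; omega
          exact t.2, t.1⟩⟩
    have z := (c i₀ (by omega)).1 ⟨fun _ => .base _ v, fun _ => .base _ v'⟩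
    rcases i with _ | i
    exacts [z.1, ((c i (by omega)).2 z).2]
  have k2 : ∀ t ≤ m, ∀ i ≤ l + t, ∀ j, P i j := fun t => by
    induction t with
    | zero => exact fun _ i hi j q => k1 j (by have := mem_F.1 q; dsimp only at this; omega) i hi q
    | succ t ih =>
      intro ht i hi j q
      have ih := ih (by omega)
      rcases hi.eq_or_lt with rfl | hi
      · obtain ⟨j₀, u, q', v⟩ := h2 t ht
        have c := chain (P := P (l + t + 1)) (w := a + t) fun j h =>
          ⟨fun s => f (l + t) j _ _ (mem_F.2 (by dsimp only; omega)) (ih _ le_rfl _)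
            (fun _ _ => adj.2 (by dsimp only; omega)) fun _ x y _ e n => by
              rcases le_or_gt x (l + t) with z | z
              · exact ih x z y
              obtain ⟨rfl, rfl⟩ : x = l + t + 1 ∧ y = j := by
                have := adj.1 e; dsimp only at this; omega
              exact s,
          fun s => f (l + t) j _ _ (mem_F.2 (by dsimp only; omega)) (ih _ le_rfl _)
            (fun _ _ => adj.2 (by dsimp only; omega)) fun _ x y _ e n => by
              rcases le_or_gt x (l + t) with z | z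
              · exact ih x z y
              obtain ⟨rfl, rfl⟩ : x = l + t + 1 ∧ y = j + 1 := by
                have := adj.1 e; dsimp only at this; omega
              exact s⟩
        exact (c j (by have := mem_F.1 q; dsimp only at this; omega)).2
          ((c j₀ (by omega)).1 fun _ => .base _ v) q
      · exact ih i (by omega) j q
  exact fun ⟨⟨i, j⟩, q⟩ => k2 m le_rfl i (mem_F.1 q).1 j q

lemma bound (a h m : ℕ) (m0 : 0 < m) {p : ℝ} (p0 : 0 ≤ p) (p1 : p ≤ 1) :
    1 - (a * (1 - p ^ 2) ^ h + m * (1 - p ^ 1) ^ a) ≤ prob (G a (2 * h) m) p := by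
  classical
  let T : Fin a → Fin h → Finset (F a (2 * h) m) := fun j t =>
    {⟨(2 * t, j), mem_F.2 (by dsimp only; omega)⟩, ⟨(2 * t + 1, j), mem_F.2 (by dsimp only; omega)⟩}
  let U : Fin m → Fin a → Finset (F a (2 * h) m) := fun i j =>
    {⟨(2 * h + i + 1, j), mem_F.2 (by dsimp only; omega)⟩}
  have e1 := fun j => Enone p univ (T j) 2 (fun t _ t' _ n => by
    simp [T, Function.onFun]; omega) fun t _ => card_pair (by simp)
  have e2 := fun i => Enone p univ (U i) 1 (fun t _ t' _ n => by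
    simp [U, Function.onFun]; omega) fun t _ => rfl
  have e0 := Esub p (∅ : Finset (F a (2 * h) m))
  simp only [card_univ, Fintype.card_fin, empty_subset, if_true, card_empty, pow_zero] at e0 e1 e2
  calc _ = 1 - (∑ _j : Fin a, (1 - p ^ 2) ^ h + ∑ _i : Fin m, (1 - p ^ 1) ^ a) := by simp
    _ = E p fun B => 1 - (∑ j, ∏ t, (1 + -if T j t ⊆ B then 1 else 0) +
          ∑ i, ∏ j, (1 + -if U i j ⊆ B then 1 else 0)) := by
      rw [← sum_congr rfl fun j _ => e1 j, ← sum_congr rfl fun i _ => e2 i]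
      simp only [E, mul_sub, mul_add, mul_sum, sum_sub_distrib, sum_add_distrib] at e0 ⊢
      rw [e0, sum_comm, sum_comm (s := (univ : Finset (Fin m)))]
    _ ≤ _ := by
      refine sum_le_sum fun B _ => ?_
      have w : 0 ≤ p ^ #B * (1 - p) ^ (Fintype.card (F a (2 * h) m) - #B) := by
        have := sub_nonneg.2 p1
        positivity
      have n1 : ∀ j, (0 : ℝ) ≤ ∏ t, (1 + -if T j t ⊆ B then 1 else 0) := fun j =>
        prod_nonneg fun _ _ => by split_ifs <;> norm_num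
      have n2 : ∀ i, (0 : ℝ) ≤ ∏ j, (1 + -if U i j ⊆ B then 1 else 0) := fun j =>
        prod_nonneg fun _ _ => by split_ifs <;> norm_num
      have s1 := sum_nonneg fun j (_ : j ∈ univ) => n1 j
      have s2 := sum_nonneg fun j (_ : j ∈ univ) => n2 j
      split_ifs with z
      · exact mul_le_of_le_one_right w (by linarith)
      refine mul_nonpos_of_nonneg_of_nonpos w (not_lt.1 fun c => z (zf B m0 (fun j q => ?_)
        fun i q => ?_))
      · by_contra n
        have := single_le_sum (fun j _ => n1 j) (mem_univ ⟨j, q⟩)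
        rw [prod_eq_one fun t _ => by
          rw [if_neg fun s => n ⟨2 * t, by omega, ⟨_, s (mem_insert_self _ _)⟩, _,
            s (mem_insert_of_mem (mem_singleton_self _))⟩]; simp] at this
        linarith
      · by_contra n
        have := single_le_sum (fun j _ => n2 j) (mem_univ ⟨i, q⟩)
        rw [prod_eq_one fun t _ => by
          rw [if_neg fun s => n ⟨t, t.2, _, s (mem_singleton_self _)⟩]; simp] at this
        linarith

lemma ex {x : ℝ} {n s : ℕ} (x1 : x ≤ 1) (s0 : (0 : ℝ) < s) (h : (s : ℝ) ≤ n * x) :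
    (1 - x) ^ n ≤ 40320 / s ^ 8 := by
  have a := Real.pow_div_factorial_le_exp s s0.le 8
  have b : (1 - x) ^ n ≤ Real.exp (-x) ^ n :=
    pow_le_pow_left₀ (by linarith) (by linarith [Real.add_one_le_exp (-x)]) n
  rw [← Real.exp_nat_mul] at b
  refine b.trans ((Real.exp_le_exp.2 (by linarith : _ ≤ -(s : ℝ))).trans ?_)
  rw [Real.exp_neg, ← inv_div]
  exact inv_anti₀ (by positivity) (by simpa [Nat.factorial] using a)

theorem result (c : ℝ) (hc : 0 < c) : ∃ (V : Type) (_ : Fintype V) (G : SimpleGraph V)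
    (K : Finset V) (p₀ : ℝ), G.IsClique K ∧ 1 ≤ #K ∧ 0 ≤ p₀ ∧ p₀ ≤ 1 ∧
    p₀ < c * √(#K / Fintype.card V) ∧ ∀ p : ℝ, p₀ ≤ p → p ≤ 1 → 1 / 2 < prob G p := by
  obtain ⟨s, hs⟩ := exists_nat_gt (200000 + 9 / c ^ 2)
  have q : 0 < 9 / c ^ 2 := by positivity
  have s0 : (0 : ℝ) < s := by linarith
  have s1 : (1 : ℝ) ≤ s := by linarith
  have t1 : 1 ≤ s := by exact_mod_cast s1
  have m0 : 0 < s ^ 7 := by positivity
  let r : Fin (s ^ 7) → F (s ^ 5) (2 * s ^ 9) (s ^ 7) := fun j =>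
    ⟨(2 * s ^ 9 + s ^ 7, j), mem_F.2 (by dsimp only; omega)⟩
  have ri : r.Injective := fun i j h => Fin.ext (congrArg (·.1.2) h)
  have n : Fintype.card (F (s ^ 5) (2 * s ^ 9) (s ^ 7)) ≤ 9 * s ^ 14 := by
    rw [Fintype.card_coe]
    refine (card_le_card (t := range (2 * s ^ 9 + 1) ×ˢ range (s ^ 5) ∪
      Icc (2 * s ^ 9 + 1) (2 * s ^ 9 + s ^ 7) ×ˢ range (s ^ 5 + s ^ 7)) fun x h => ?_).trans
      ((card_union_le _ _).trans ?_)
    · have := mem_F.1 h
      simp only [mem_union, mem_product, mem_range, mem_Icc]; omega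
    have := Nat.pow_le_pow_right t1 (show 5 ≤ 14 by norm_num)
    have := Nat.pow_le_pow_right t1 (show 12 ≤ 14 by norm_num)
    simp only [card_product, card_range, Nat.card_Icc]
    rw [show 2 * s ^ 9 + s ^ 7 + 1 - (2 * s ^ 9 + 1) = s ^ 7 by omega]
    nlinarith
  have n0 : 0 < Fintype.card (F (s ^ 5) (2 * s ^ 9) (s ^ 7)) :=
    Fintype.card_pos_iff.2 ⟨r ⟨0, m0⟩⟩
  refine ⟨_, inferInstance, G (s ^ 5) (2 * s ^ 9) (s ^ 7), univ.map ⟨r, ri⟩, 1 / s ^ 4, ?_, ?_,
    by positivity, ?_, ?_, fun p u v => ?_⟩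
  · intro x hx y hy n
    obtain ⟨i, -, rfl⟩ := mem_map.1 hx
    obtain ⟨j, -, rfl⟩ := mem_map.1 hy
    exact adj.2 ⟨.inr fun h => n (congrArg r (Fin.ext h)), .inl (.inr ⟨rfl, rfl⟩)⟩
  · simpa using Nat.succ_le_of_lt m0
  · exact (div_le_one (by positivity)).2 (one_le_pow₀ s1)
  · rw [← div_lt_iff₀' hc]
    refine Real.lt_sqrt_of_sq_lt ?_
    have n : (Fintype.card (F (s ^ 5) (2 * s ^ 9) (s ^ 7)) : ℝ) ≤ 9 * s ^ 14 := by exact_mod_cast n
    rw [card_map, card_univ, Fintype.card_fin, lt_div_iff₀ (by exact_mod_cast n0)]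
    calc _ ≤ (1 / s ^ 4 / c) ^ 2 * (9 * s ^ 14 : ℝ) := by gcongr
      _ = 9 / c ^ 2 * s ^ 6 := by field_simp
      _ < s * s ^ 6 := by gcongr; linarith
      _ = _ := by push_cast; ring
  have p0 : 0 < 1 / (s : ℝ) ^ 4 := by positivity
  refine lt_of_lt_of_le ?_ (bound _ _ _ m0 (by linarith) v)
  have e1 := ex (x := p ^ 2) (n := s ^ 9) (pow_le_one₀ (by linarith) v) s0 (by
    calc (s : ℝ) = (s ^ 9 : ℕ) * (1 / s ^ 4) ^ 2 := by push_cast; field_simp
      _ ≤ _ := by gcongr)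
  have e2 := ex (x := p ^ 1) (n := s ^ 5) (by simpa using v) s0 (by
    calc (s : ℝ) = (s ^ 5 : ℕ) * (1 / s ^ 4) ^ 1 := by push_cast; field_simp
      _ ≤ _ := by gcongr)
  have := pow_le_pow_right₀ s1 (show 5 ≤ 7 by norm_num)
  have z : (s : ℝ) ^ 7 * (40320 / s ^ 8) < 1 / 4 := by
    rw [show (s : ℝ) ^ 7 * (40320 / s ^ 8) = 40320 / s by field_simp, div_lt_iff₀ s0]
    linarith
  have y : (s : ℝ) ^ 5 * (1 - p ^ 2) ^ s ^ 9 ≤ s ^ 7 * (40320 / s ^ 8) :=
    mul_le_mul this e1 (pow_nonneg (sub_nonneg.2 (pow_le_one₀ (by linarith) v)) _) (by positivity)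
  have := mul_le_mul_of_nonneg_left e2 (pow_pos s0 7).le
  push_cast
  linarith

end Pool.Agent.Results.MP_4451bf_co.Below
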